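import Mathlib

/-!
# Places of number fields and sets of positive lower density
-/

set_option autoImplicit false

open NumberField IsDedekindDomain

namespace Pool.Agent.U213.OR

/-- The finite places of the number field `K`. -/
abbrev Place (K : Type) [Field K] [NumberField K] : Type := HeightOneSpectrum (𝓞 K)

section

variable {K : Type} [Field K] [NumberField K]

/-- The place `v` is above the prime number `p`. -/
def Over (v : Place K) (p : Nat.Primes) : Prop := ((p : ℕ) : 𝓞 K) ∈ v.asIdeal

/-- The number of elements of the residue field of `v`. -/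
noncomputable def norm (v : Place K) : ℕ := Ideal.absNorm v.asIdeal

/-- The place `v` of `K` is above the place `v₀` of `ℚ`. -/
def Lies (v : Place K) (v₀ : Place ℚ) : Prop := ∀ p : Nat.Primes, Over v₀ p → Over v p

/-- All places of `K` above `v₀` have the same residue field as `v₀`. If `v₀` is unramified in `K`, then this
means that it splits completely. -/
def Splits (K : Type) [Field K] [NumberField K] (v₀ : Place ℚ) : Prop :=
  ∀ v : Place K, Lies v v₀ → norm v = norm v₀

/-- The set `S` of places has positive lower density. -/
def PosK (S : Set (Place K)) : Prop :=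
  ∃ c : ℝ, 0 < c ∧ ∀ᶠ x : ℕ in Filter.atTop,
    c * ({v : Place K | norm v ≤ x}.ncard : ℝ) ≤ ({v : Place K | v ∈ S ∧ norm v ≤ x}.ncard : ℝ)

end

/-- The set `S` of prime numbers has positive lower density (used in the proofs only). -/
def PosQ (S : Set Nat.Primes) : Prop :=
  ∃ c : ℝ, 0 < c ∧ ∀ᶠ x : ℕ in Filter.atTop,
    c * ({p : Nat.Primes | (p : ℕ) ≤ x}.ncard : ℝ) ≤
      ({p : Nat.Primes | p ∈ S ∧ (p : ℕ) ≤ x}.ncard : ℝ)

end Pool.Agent.U213.OR
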