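import Pool.Agent.U213.OR.PolyDefs
import Pool.Agent.U213.OR.DensDefs
import Pool.Agent.Q282.UZ.Sys

/-!
# Newton and Hodge polygons of the cohomology with compact supports, formally

`K` is a number field. The category `𝓐` can be taken as the category of the families `(V_p)_p` of `p`-adic
representations of the Galois group of `K`, `p` running through all prime numbers, which are de Rham at the
places above `p`. For a place `v` above `p` the Newton slopes of the object are the slopes of the
Frobenius on `D_pst` of the restriction of `V_p` to the decomposition group of `v` (normalised by the norm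
of `v`), and the Hodge slopes are the Hodge–Tate weights (at `v`, with the multiplicities of `V_p`).
`H n w X` is the weight quotient `gr^W_w H^n_c(X, ℚ_p)`, `p` running through all primes.
-/

set_option autoImplicit false

open CategoryTheory CategoryTheory.Limits AlgebraicGeometry Pool.Agent.Y116.UV Pool.Agent.Q282.UZ

namespace Pool.Agent.U213.OR

universe u v

/-- The sequence `... → U n → X n → Z n → U (n + 1) → ...` is exact for suitable morphisms. -/
def LongExact {𝓐 : Type u} [Category.{v} 𝓐] [Abelian 𝓐] (U X Z : ℤ → 𝓐) : Prop :=
  ∃ (a : ∀ n, U n ⟶ X n) (b : ∀ n, X n ⟶ Z n) (d : ∀ n, Z n ⟶ U (n + 1))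
    (h₁ : ∀ n, a n ≫ b n = 0) (h₂ : ∀ n, b n ≫ d n = 0) (h₃ : ∀ n, d n ≫ a (n + 1) = 0),
    (∀ n, (ShortComplex.mk _ _ (h₁ n)).Exact) ∧ (∀ n, (ShortComplex.mk _ _ (h₂ n)).Exact) ∧
    ∀ n, (ShortComplex.mk _ _ (h₃ n)).Exact

/-- The image of the open immersion `j` is the complement of `f = 0` in `Spec A`. -/
def IsCompl {R A : Type} [CommRing R] [CommRing A] [Algebra R A] {m : ℕ} (f : Fin m → A) {U : Sch R}
    (j : U ⟶ aff R A) : Prop :=
  IsOpenImmersion j.left ∧ Set.range j.left = {x : PrimeSpectrum A | ∃ l, f l ∉ x.asIdeal}

/-- The weight quotients of the cohomology with compact supports of the separated schemes of finite type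
over the field `K`, with their Newton and Hodge slopes at the places in `Pl`, and the properties which are
used. -/
structure Theory (K : Type) [Field K] (Pl : Type) where
  /-- the category of coefficients -/
  𝓐 : Type u
  [cat : Category.{v} 𝓐]
  [abelian : Abelian 𝓐]
  /-- the Newton slopes, with multiplicities -/
  newton : Pl → 𝓐 → Multiset ℚ
  /-- the Hodge slopes, with multiplicities -/
  hodge : Pl → 𝓐 → Multiset ℚ
  newton_add : ∀ (v : Pl) (S : ShortComplex 𝓐), S.ShortExact →
    newton v S.X₂ = newton v S.X₁ + newton v S.X₃
  hodge_add : ∀ (v : Pl) (S : ShortComplex 𝓐), S.ShortExact →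
    hodge v S.X₂ = hodge v S.X₁ + hodge v S.X₃
  /-- the Newton polygon is on or above the Hodge polygon (weak admissibility) -/
  above : ∀ (v : Pl) (A : 𝓐), Above (newton v A) (hodge v A)
  /-- the quotient of weight `w` of the cohomology of degree `n` -/
  H : ℤ → ℤ → Sch K → 𝓐
  /-- isomorphic schemes have isomorphic cohomology -/
  iso : ∀ (n w : ℤ) (X Y : Sch K), FT True X → Nonempty (X ≅ Y) → Nonempty (H n w X ≅ H n w Y)
  /-- the cohomology of the empty scheme is zero -/
  empty : ∀ (n w : ℤ) (X : Sch K), IsEmpty X.left → IsZero (H n w X)
  /-- the sequence of a closed subscheme `Z` of `X` with open complement `U`; `gr^W_w` is exact -/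
  sequence : ∀ (w : ℤ) {Z X U : Sch K} (i : Z ⟶ X) (j : U ⟶ X), FT True X → IsTriple i j →
    LongExact (fun n => H n w U) (fun n => H n w X) (fun n => H n w Z)
  /-- the point: the only cohomology is the unit object in degree and weight `0` -/
  point : (∀ n w : ℤ, (n ≠ 0 ∨ w ≠ 0) → IsZero (H n w (aff K K))) ∧
    ∀ v, newton v (H 0 0 (aff K K)) = {0} ∧ hodge v (H 0 0 (aff K K)) = {0}
  /-- Jouanolou's scheme `∑ f_l w_l = 1` in `m + 1` variables is an affine bundle of rank `m` over the
  complement `U` of `f = 0` in `Spec A`: its `H^(n + 2m)_c` is `H^n_c(U)(-m)`, and the slopes increase by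
  `m` -/
  bundle : ∀ (n w : ℤ) (A : Type) [CommRing A] [Algebra K A] [Algebra.FiniteType K A] (m : ℕ)
    (f : Fin (m + 1) → A) (U : Sch K) (o : U ⟶ aff K A), IsCompl f o → ∀ v,
    newton v (H (n + 2 * m) (w + 2 * m) (aff K (Jou f))) = (newton v (H n w U)).map (· + (m : ℚ)) ∧
    hodge v (H (n + 2 * m) (w + 2 * m) (aff K (Jou f))) = (hodge v (H n w U)).map (· + (m : ℚ))
  /-- `H^n_c(X)` is a direct factor of `H^(n + 1)_c(X × 𝔾_m)` -/
  torus : ∀ (n w : ℤ) (A : Type) [CommRing A] [Algebra K A] [Algebra.FiniteType K A],
    Nonempty (Retract (H n w (aff K A)) (H (n + 1) w (aff K (LaurentPolynomial A))))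

attribute [instance] Theory.cat Theory.abelian

namespace Theory

variable {K : Type} [Field K] {Pl : Type} (T : Theory.{u, v} K Pl)

/-- The set of places at which `X` is ordinary: the Newton and the Hodge polygons of all weight quotients
of all `H^n_c(X)` coincide. For a smooth projective variety `X` the weight quotients are the groups
`H^n(X)`, and up to finitely many places this is the set of places of good ordinary reduction (in the
sense of Bloch–Kato). -/
def ord (X : Sch K) : Set Pl := {v | ∀ n w : ℤ, T.newton v (T.H n w X) = T.hodge v (T.H n w X)}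

/-- The cohomology of `X` is a direct factor of the cohomology of `Y`. -/
def IsFactor (X Y : Sch K) : Prop := ∀ n w : ℤ, Nonempty (Retract (T.H n w X) (T.H n w Y))

end Theory

/-- `C` is a class of schemes over `K` like the class of the smooth projective schemes: its members are
separated of finite type, and (Hironaka) for every integral affine scheme `Spec A` of finite type and
dimension at most `d` there are a nonempty open subscheme `Spec A[1/a]`, a member `Y` of `C` of dimension
at most `d`, and an open subscheme `V` of `Y` whose complement has dimension less than `d`, such that the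
cohomology of `Spec A[1/a]` is a direct factor of the one of `V` (with resolution of singularities they are
isomorphic). -/
structure IsProjClass {K : Type} [Field K] {Pl : Type} (T : Theory.{u, v} K Pl) (C : Sch K → Prop) :
    Prop where
  ft : ∀ X, C X → FT True X
  resolution : ∀ (d : ℕ) (A : Type) [CommRing A] [IsDomain A] [Algebra K A] [Algebra.FiniteType K A],
    ringKrullDim A ≤ d → ∃ (a : A) (Z Y V : Sch K) (i : Z ⟶ Y) (o : V ⟶ Y), a ≠ 0 ∧ IsTriple i o ∧
      C Y ∧ topologicalKrullDim Y.left ≤ d ∧ topologicalKrullDim Z.left < d ∧
      T.IsFactor (aff K (Localization.Away a)) V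

/-- The theories over all number fields, and the restriction of Galois representations. -/
structure Theories where
  /-- the theory over `K` -/
  T : ∀ (K : Type) [Field K] [NumberField K], Theory.{u, v} K (Place K)
  /-- restriction of representations -/
  res : ∀ (K : Type) [Field K] [NumberField K], (T ℚ).𝓐 ⥤ (T K).𝓐
  /-- restriction does not change the slopes -/
  res_slopes : ∀ (K : Type) [Field K] [NumberField K] (A : (T ℚ).𝓐) (v₀ : Place ℚ) (v : Place K),
    Lies v v₀ → (T K).newton v ((res K).obj A) = (T ℚ).newton v₀ A ∧
      (T K).hodge v ((res K).obj A) = (T ℚ).hodge v₀ A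

/-- `C K` is a class of varieties over `K`, for every number field `K`, like the class of the abelian
varieties or the class of the smooth projective varieties. -/
structure Theories.IsClosed (S : Theories.{u, v})
    (C : ∀ (K : Type) [Field K] [NumberField K], Sch K → Prop) : Prop where
  /-- the cohomologies of `X` and `Y` are direct factors of the one of `Z`, for example of `Z = X × Y` -/
  union : ∀ X Y, C ℚ X → C ℚ Y → ∃ Z, C ℚ Z ∧ (S.T ℚ).IsFactor X Z ∧ (S.T ℚ).IsFactor Y Z
  /-- the cohomology of `X` over `K` is a direct factor of the restriction of the cohomology of a variety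
  `X₀` over `ℚ`, for example of the Weil restriction of `X` -/
  descent : ∀ (K : Type) [Field K] [NumberField K] (X : Sch K), C K X → ∃ X₀, C ℚ X₀ ∧
    ∀ n w : ℤ, Nonempty (Retract ((S.T K).H n w X) ((S.res K).obj ((S.T ℚ).H n w X₀)))
  /-- complex multiplication (Shimura–Taniyama): for every totally real field and every CM field `L`
  there is a variety over `ℚ` which is ordinary only at prime numbers which split completely in `L` and
  at finitely many other primes, for example the Weil restriction of the product of the abelian varieties
  with complex multiplication by all CM types of a CM field which is a Galois extension of `ℚ` and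
  contains `L` -/
  cm : ∀ (L : Type) [Field L] [NumberField L],
    (NumberField.IsTotallyReal L ∨ NumberField.IsCMField L) →
    ∃ A, C ℚ A ∧ {v | v ∈ (S.T ℚ).ord A ∧ ¬ Splits L v}.Finite

/-- Positive lower density of the ordinary places for all members of `C K`, for all totally real fields and
all CM fields `K`, even among the places above the prime numbers which split completely in `K` and in a
totally real or CM field `L`. -/
def Theories.AllCM (S : Theories.{u, v})
    (C : ∀ (K : Type) [Field K] [NumberField K], Sch K → Prop) : Prop :=
  ∀ (K : Type) [Field K] [NumberField K] (L : Type) [Field L] [NumberField L],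
    (NumberField.IsTotallyReal K ∨ NumberField.IsCMField K) →
    (NumberField.IsTotallyReal L ∨ NumberField.IsCMField L) →
    ∀ X, C K X → PosK {v | v ∈ (S.T K).ord X ∧ ∃ v₀, Lies v v₀ ∧ Splits K v₀ ∧ Splits L v₀}

/-- For all number fields `K` and all members of `C K`: the prime numbers such that all places of `K` above
them are ordinary have positive lower density. -/
def Theories.AllAbove (S : Theories.{u, v})
    (C : ∀ (K : Type) [Field K] [NumberField K], Sch K → Prop) : Prop :=
  ∀ (K : Type) [Field K] [NumberField K] (X : Sch K), C K X →
    PosK {v₀ : Place ℚ | ∀ v : Place K, Lies v v₀ → v ∈ (S.T K).ord X}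

/-- `Y` is the hypersurface `F(x, y, z) = 1` of a trilinear form over `ℚ` in three blocks of variables, one
of which has at most `m` variables. -/
def IsTri (m : ℕ) (Y : Sch ℚ) : Prop :=
  ∃ (a b c : ℕ) (F : Fin a → Fin b → Fin c → ℚ), (a ≤ m ∨ b ≤ m ∨ c ≤ m) ∧ Y = hypS F

/-- `Y` is the affine scheme over `ℚ` given by a system of equations each of which is a sum of at most
three monomials `x_i y_j` (with coefficient `1`). -/
def IsSys (Y : Sch ℚ) : Prop :=
  ∃ (a b c : ℕ) (E : Fin c → Finset (Fin a × Fin b)), (∀ l, (E l).card ≤ 3) ∧ Y = sysS ℚ E

/-- Any finitely many schemes with the property `P` have common ordinary primes, which have positive lower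
density. -/
def Theories.Common (S : Theories.{u, v}) (P : Sch ℚ → Prop) : Prop :=
  ∀ s : Set (Sch ℚ), s.Finite → (∀ Y ∈ s, P Y) → PosK {v | ∀ Y ∈ s, v ∈ (S.T ℚ).ord Y}

end Pool.Agent.U213.OR
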