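import Pool.Agent.U213.OR.DensDefs

/-!
# Sets of positive lower density in `ℚ` and in number fields
-/

set_option autoImplicit false

open NumberField IsDedekindDomain

namespace Pool.Agent.U213.OR

section

variable {K : Type} [Field K] [NumberField K]

lemma exists_prime_dvd {R : Type} [CommRing R] (P : Ideal R) [hP : P.IsPrime] (n : ℕ) (hn : n ≠ 0)
    (h : (n : R) ∈ P) : ∃ p : Nat.Primes, (p : ℕ) ∣ n ∧ ((p : ℕ) : R) ∈ P := by
  induction n using induction_on_primes with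
  | zero => exact absurd rfl hn
  | one =>
    rw [Nat.cast_one] at h
    exact absurd ((Ideal.eq_top_iff_one _).2 h) hP.ne_top
  | prime_mul p a hp ih =>
    rw [Nat.cast_mul] at h
    rcases hP.mem_or_mem h with h1 | h1
    · exact ⟨⟨p, hp⟩, dvd_mul_right _ _, h1⟩
    · obtain ⟨q, hq, hq'⟩ := ih (fun h0 => hn (by rw [h0, mul_zero])) h1
      exact ⟨q, hq.mul_left _, hq'⟩

lemma norm_ne_zero (v : Place K) : norm v ≠ 0 := by
  rw [norm, Ne, Ideal.absNorm_eq_zero_iff]
  exact v.ne_bot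

lemma exists_over (v : Place K) : ∃ p : Nat.Primes, (p : ℕ) ∣ norm v ∧ Over v p :=
  exists_prime_dvd v.asIdeal (norm v) (norm_ne_zero v) (Ideal.absNorm_mem v.asIdeal)

lemma over_unique {v : Place K} {p q : Nat.Primes} (hp : Over v p) (hq : Over v q) : p = q := by
  by_contra hne
  have hc : Nat.Coprime p q :=
    (Nat.coprime_primes p.2 q.2).2 fun h => hne (Subtype.ext h)
  have h1 := (Nat.isCoprime_iff_coprime.2 hc)
  obtain ⟨a, b, hab⟩ := h1
  have h2 : (1 : 𝓞 K) ∈ v.asIdeal := by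
    have h3 : ((a * (p : ℕ) + b * (q : ℕ) : ℤ) : 𝓞 K) = 1 := by
      rw [hab, Int.cast_one]
    rw [← h3]
    push_cast
    exact v.asIdeal.add_mem (v.asIdeal.mul_mem_left _ hp) (v.asIdeal.mul_mem_left _ hq)
  exact v.isPrime.ne_top ((Ideal.eq_top_iff_one _).2 h2)

lemma over_dvd {v : Place K} {p : Nat.Primes} (hp : Over v p) : (p : ℕ) ∣ norm v := by
  obtain ⟨q, hq, hq'⟩ := exists_over v
  rwa [over_unique hp hq']

lemma over_le {v : Place K} {p : Nat.Primes} (hp : Over v p) : (p : ℕ) ≤ norm v :=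
  Nat.le_of_dvd (Nat.pos_of_ne_zero (norm_ne_zero v)) (over_dvd hp)

variable (K) in
lemma norm_span (n : ℕ) : Ideal.absNorm (Ideal.span {(n : 𝓞 K)}) = n ^ Module.finrank ℚ K := by
  rw [Ideal.absNorm_span_singleton]
  have h1 : (n : 𝓞 K) = algebraMap ℤ (𝓞 K) n := by simp
  rw [h1, Algebra.norm_algebraMap]
  simp [RingOfIntegers.rank]

variable (K) in
lemma exists_place (p : Nat.Primes) : ∃ v : Place K, Over v p := by
  have h1 : Ideal.span {((p : ℕ) : 𝓞 K)} ≠ ⊤ := by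
    intro h
    have h2 := norm_span K p
    rw [h, Ideal.absNorm_top] at h2
    have h3 : 1 < (p : ℕ) ^ Module.finrank ℚ K :=
      Nat.one_lt_pow Module.finrank_pos.ne' p.2.one_lt
    omega
  obtain ⟨M, hM, hle⟩ := Ideal.exists_le_maximal _ h1
  have hmem : ((p : ℕ) : 𝓞 K) ∈ M := hle (Ideal.mem_span_singleton_self _)
  refine ⟨⟨M, hM.isPrime, ?_⟩, hmem⟩
  rintro rfl
  rw [Ideal.mem_bot, Nat.cast_eq_zero] at hmem
  exact p.2.ne_zero hmem

/-- There are at most `[K : ℚ]` places above `p`. -/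
lemma card_over_le (p : Nat.Primes) (s : Finset (Place K)) (hs : ∀ v ∈ s, Over v p) :
    s.card ≤ Module.finrank ℚ K := by
  classical
  have hinj : Set.InjOn (fun v : Place K => v.asIdeal) s := fun v _ w _ h =>
    HeightOneSpectrum.ext h
  have h1 : (∏ I ∈ s.image fun v : Place K => v.asIdeal, I) ∣ Ideal.span {((p : ℕ) : 𝓞 K)} := by
    refine Finset.prod_primes_dvd _ ?_ ?_
    · intro I hI
      obtain ⟨v, _, rfl⟩ := Finset.mem_image.1 hI
      exact v.prime
    · intro I hI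
      obtain ⟨v, hv, rfl⟩ := Finset.mem_image.1 hI
      rw [Ideal.dvd_iff_le, Ideal.span_singleton_le_iff_mem]
      exact hs v hv
  rw [Finset.prod_image hinj] at h1
  have h2 := map_dvd (Ideal.absNorm (S := 𝓞 K)) h1
  rw [map_prod, norm_span] at h2
  have h3 : (p : ℕ) ^ s.card ≤ ∏ v ∈ s, norm v := by
    rw [← Finset.prod_const]
    exact Finset.prod_le_prod' fun v hv => over_le (hs v hv)
  have h4 := h3.trans (Nat.le_of_dvd (pow_pos p.2.pos _) h2)
  exact (Nat.pow_le_pow_iff_right p.2.one_lt).1 h4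

lemma finite_norm_le (x : ℕ) : {v : Place K | norm v ≤ x}.Finite := by
  refine Set.Finite.of_finite_image (f := fun v : Place K => v.asIdeal) ?_
    fun v _ w _ h => HeightOneSpectrum.ext h
  refine (Ideal.finite_setOf_absNorm_le (S := 𝓞 K) x).subset ?_
  rintro _ ⟨v, hv, rfl⟩
  exact hv

lemma finite_primes_le (x : ℕ) : {p : Nat.Primes | (p : ℕ) ≤ x}.Finite := by
  refine Set.Finite.of_finite_image (f := fun p : Nat.Primes => (p : ℕ)) ?_
    fun p _ q _ h => Subtype.ext h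
  refine (Set.finite_Iic x).subset ?_
  rintro _ ⟨v, hv, rfl⟩
  exact hv

/-- the number of places is at most `[K : ℚ]` times the number of primes -/
lemma ncard_places_le (x : ℕ) : {v : Place K | norm v ≤ x}.ncard ≤
    Module.finrank ℚ K * {p : Nat.Primes | (p : ℕ) ≤ x}.ncard := by
  classical
  choose ch hch using fun v : Place K => exists_over v
  have h1 := Finset.card_le_mul_card_image (f := ch) (finite_norm_le (K := K) x).toFinset
    (Module.finrank ℚ K) ?_
  · rw [← Set.ncard_eq_toFinset_card _ (finite_norm_le (K := K) x)] at h1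
    refine h1.trans (Nat.mul_le_mul_left _ ?_)
    rw [Set.ncard_eq_toFinset_card _ (finite_primes_le x)]
    refine Finset.card_le_card ?_
    intro p hp
    obtain ⟨v, hv, rfl⟩ := Finset.mem_image.1 hp
    rw [Set.Finite.mem_toFinset] at hv ⊢
    exact (over_le (hch v).2).trans hv
  · intro p _
    exact card_over_le p _ fun v hv => by
      rw [Finset.mem_filter] at hv
      rw [← hv.2]
      exact (hch v).2

/-- from prime numbers to `K` -/
theorem pos_of_primes {S₀ : Set Nat.Primes} {S : Set (Place K)}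
    (h : ∀ p ∈ S₀, ∀ v, Over v p → norm v = p ∧ v ∈ S) (hS : PosQ S₀) : PosK S := by
  obtain ⟨c, hc, hx⟩ := hS
  have hn : (0 : ℝ) < Module.finrank ℚ K := by exact_mod_cast Module.finrank_pos
  refine ⟨c / Module.finrank ℚ K, div_pos hc hn, hx.mono fun x hx => ?_⟩
  have h1 : ({v : Place K | norm v ≤ x}.ncard : ℝ) ≤
      Module.finrank ℚ K * ({p : Nat.Primes | (p : ℕ) ≤ x}.ncard : ℝ) := by
    exact_mod_cast ncard_places_le x
  choose g hg using fun p : Nat.Primes => exists_place K p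
  have h2 : {p : Nat.Primes | p ∈ S₀ ∧ (p : ℕ) ≤ x}.ncard ≤
      {v : Place K | v ∈ S ∧ norm v ≤ x}.ncard := by
    refine Set.ncard_le_ncard_of_injOn g ?_ ?_ ((finite_norm_le x).subset fun v hv => hv.2)
    · intro p hp
      obtain ⟨h3, h4⟩ := h p hp.1 _ (hg p)
      exact ⟨h4, by rw [h3]; exact hp.2⟩
    · intro p _ q _ hpq
      have h5 := hg q
      rw [← hpq] at h5
      exact over_unique (hg p) h5
  have h3 : ({p : Nat.Primes | p ∈ S₀ ∧ (p : ℕ) ≤ x}.ncard : ℝ) ≤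
      ({v : Place K | v ∈ S ∧ norm v ≤ x}.ncard : ℝ) := by exact_mod_cast h2
  refine le_trans ?_ (hx.trans h3)
  rw [div_mul_eq_mul_div, div_le_iff₀ hn]
  calc c * ({v : Place K | norm v ≤ x}.ncard : ℝ)
      ≤ c * (Module.finrank ℚ K * ({p : Nat.Primes | (p : ℕ) ≤ x}.ncard : ℝ)) :=
        mul_le_mul_of_nonneg_left h1 hc.le
    _ = _ := by ring

end

lemma PosQ.mono {S S' : Set Nat.Primes} (h : S ⊆ S') (hS : PosQ S) : PosQ S' := by
  obtain ⟨c, hc, hx⟩ := hS
  refine ⟨c, hc, hx.mono fun x hx => hx.trans ?_⟩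
  have h1 : {p : Nat.Primes | p ∈ S ∧ (p : ℕ) ≤ x}.ncard ≤
      {p : Nat.Primes | p ∈ S' ∧ (p : ℕ) ≤ x}.ncard :=
    Set.ncard_le_ncard (fun p hp => ⟨h hp.1, hp.2⟩)
      ((finite_primes_le x).subset fun p hp => hp.2)
  exact_mod_cast h1

lemma tendsto_primes : Filter.Tendsto (fun x : ℕ => {p : Nat.Primes | (p : ℕ) ≤ x}.ncard)
    Filter.atTop Filter.atTop := by
  refine Filter.tendsto_atTop.2 fun n => ?_
  obtain ⟨t, ht⟩ := Infinite.exists_subset_card_eq Nat.Primes n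
  refine Filter.eventually_atTop.2 ⟨t.sup fun p => (p : ℕ), fun x hx => ?_⟩
  rw [← ht, ← Set.ncard_coe_finset]
  refine Set.ncard_le_ncard (fun p hp => ?_) (finite_primes_le x)
  exact (Finset.le_sup (f := fun p : Nat.Primes => (p : ℕ)) (Finset.mem_coe.1 hp)).trans hx

/-- Finite sets do not matter. -/
lemma PosQ.diff {S F : Set Nat.Primes} (hF : F.Finite) (hS : PosQ S) : PosQ (S \ F) := by
  obtain ⟨c, hc, hx⟩ := hS
  refine ⟨c / 2, by positivity, ?_⟩
  obtain ⟨N, hN⟩ := exists_nat_gt ((F.ncard : ℝ) / (c / 2))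
  filter_upwards [hx, Filter.tendsto_atTop.1 tendsto_primes N] with x hx hx'
  have h1 : {p : Nat.Primes | p ∈ S ∧ (p : ℕ) ≤ x}.ncard ≤
      {p : Nat.Primes | p ∈ S \ F ∧ (p : ℕ) ≤ x}.ncard + F.ncard := by
    refine (Set.ncard_le_ncard (t := {p : Nat.Primes | p ∈ S \ F ∧ (p : ℕ) ≤ x} ∪ F) ?_ ?_).trans
      (Set.ncard_union_le _ _)
    · intro p hp
      by_cases h : p ∈ F
      · exact Or.inr h
      · exact Or.inl ⟨⟨hp.1, h⟩, hp.2⟩
    · exact ((finite_primes_le x).subset fun p hp => hp.2).union hF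
  have h2 : ({p : Nat.Primes | p ∈ S ∧ (p : ℕ) ≤ x}.ncard : ℝ) ≤
      ({p : Nat.Primes | p ∈ S \ F ∧ (p : ℕ) ≤ x}.ncard : ℝ) + F.ncard := by exact_mod_cast h1
  have h3 : (N : ℝ) ≤ ({p : Nat.Primes | (p : ℕ) ≤ x}.ncard : ℝ) := by exact_mod_cast hx'
  have h4 : (F.ncard : ℝ) < (c / 2) * N := by
    rw [div_lt_iff₀ (by positivity)] at hN
    linarith
  have h5 : (c / 2) * N ≤ (c / 2) * ({p : Nat.Primes | (p : ℕ) ≤ x}.ncard : ℝ) :=
    mul_le_mul_of_nonneg_left h3 (by positivity)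
  linarith

/-- the places of `ℚ` -/
lemma norm_rat {v : Place ℚ} {p : Nat.Primes} (h : Over v p) : norm v = p := by
  have h1 : v.asIdeal ∣ Ideal.span {((p : ℕ) : 𝓞 ℚ)} := by
    rw [Ideal.dvd_iff_le, Ideal.span_singleton_le_iff_mem]
    exact h
  have h2 := map_dvd (Ideal.absNorm (S := 𝓞 ℚ)) h1
  rw [norm_span, Module.finrank_self, pow_one] at h2
  exact Nat.dvd_antisymm h2 (over_dvd h)

lemma eq_of_over {v w : Place ℚ} {p : Nat.Primes} (hv : Over v p) (hw : Over w p) : v = w := by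
  classical
  by_contra h
  have h1 := card_over_le p {v, w} (by
    intro u hu
    rcases Finset.mem_insert.1 hu with rfl | hu
    · exact hv
    · rw [Finset.mem_singleton.1 hu]
      exact hw)
  rw [Module.finrank_self, Finset.card_pair h] at h1
  omega

lemma primes_of_pos {S : Set (Place ℚ)} (hS : PosK S) :
    PosQ {p | ∃ v ∈ S, Over v p} := by
  obtain ⟨c, hc, hx⟩ := hS
  refine ⟨c, hc, hx.mono fun x hx => ?_⟩
  choose g hg using fun p : Nat.Primes => exists_place ℚ p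
  choose ch hch using fun v : Place ℚ => exists_over v
  have h1 : {p : Nat.Primes | (p : ℕ) ≤ x}.ncard ≤ {v : Place ℚ | norm v ≤ x}.ncard := by
    refine Set.ncard_le_ncard_of_injOn g ?_ ?_ (finite_norm_le x)
    · intro p hp
      change norm (g p) ≤ x
      rw [norm_rat (hg p)]
      exact hp
    · intro p _ q _ hpq
      have h5 := hg q
      rw [← hpq] at h5
      exact over_unique (hg p) h5
  have h2 : {v : Place ℚ | v ∈ S ∧ norm v ≤ x}.ncard ≤
      {p : Nat.Primes | (p ∈ {p | ∃ v ∈ S, Over v p}) ∧ (p : ℕ) ≤ x}.ncard := by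
    refine Set.ncard_le_ncard_of_injOn ch ?_ ?_ ((finite_primes_le x).subset fun p hp => hp.2)
    · intro v hv
      exact ⟨⟨v, hv.1, (hch v).2⟩, (over_le (hch v).2).trans hv.2⟩
    · intro v _ w _ hvw
      have h5 := (hch w).2
      rw [← hvw] at h5
      exact eq_of_over (hch v).2 h5
  have h1' : ({p : Nat.Primes | (p : ℕ) ≤ x}.ncard : ℝ) ≤
      ({v : Place ℚ | norm v ≤ x}.ncard : ℝ) := by exact_mod_cast h1
  have h2' : ({v : Place ℚ | v ∈ S ∧ norm v ≤ x}.ncard : ℝ) ≤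
      ({p : Nat.Primes | (p ∈ {p | ∃ v ∈ S, Over v p}) ∧ (p : ℕ) ≤ x}.ncard : ℝ) := by
    exact_mod_cast h2
  exact (mul_le_mul_of_nonneg_left h1' hc.le).trans (hx.trans h2')

lemma pos_of_primes_rat {S : Set (Place ℚ)} (hS : PosQ {p | ∃ v ∈ S, Over v p}) : PosK S := by
  refine pos_of_primes ?_ hS
  rintro p ⟨w, hw, hwp⟩ v hv
  rw [eq_of_over hv hwp]
  exact ⟨norm_rat hwp, hw⟩

lemma PosK.mono {S S' : Set (Place ℚ)} (h : S ⊆ S') (hS : PosK S) : PosK S' := by
  refine pos_of_primes_rat ((primes_of_pos hS).mono ?_)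
  rintro p ⟨v, hv, hp⟩
  exact ⟨v, h hv, hp⟩

/-- Finite sets do not matter. -/
lemma PosK.diff {S F : Set (Place ℚ)} (hF : F.Finite) (hS : PosK S) : PosK (S \ F) := by
  choose ch hch using fun v : Place ℚ => exists_over v
  refine pos_of_primes_rat (((primes_of_pos hS).diff (hF.image ch)).mono ?_)
  rintro p ⟨⟨v, hv, hp⟩, h2⟩
  refine ⟨v, ⟨hv, fun h3 => h2 ⟨v, h3, ?_⟩⟩, hp⟩
  exact over_unique (hch v).2 hp

section

variable {K : Type} [Field K] [NumberField K]

lemma lies_of_over {v : Place K} {v₀ : Place ℚ} {p : Nat.Primes} (h : Over v p) (h₀ : Over v₀ p) :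
    Lies v v₀ := fun q hq => by
  rw [over_unique hq h₀]
  exact h

lemma over_of_lies {v : Place K} {v₀ : Place ℚ} (h : Lies v v₀) : ∃ p, Over v₀ p ∧ Over v p := by
  obtain ⟨p, _, hp⟩ := exists_over v₀
  exact ⟨p, hp, h p hp⟩

/-- **From `ℚ` to `K`.** -/
theorem pos_transfer {S₀ : Set (Place ℚ)} {S : Set (Place K)}
    (h : ∀ v₀ ∈ S₀, Splits K v₀ ∧ ∀ v, Lies v v₀ → v ∈ S) (hS : PosK S₀) : PosK S := by
  refine pos_of_primes ?_ (primes_of_pos hS)
  rintro p ⟨v₀, h₀, hp⟩ v hv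
  obtain ⟨h1, h2⟩ := h v₀ h₀
  have h3 := lies_of_over hv hp
  exact ⟨(h1 v h3).trans (norm_rat hp), h2 v h3⟩

lemma lies_self (v : Place ℚ) : Lies v v := fun _ h => h

lemma eq_of_lies {v v₀ : Place ℚ} (h : Lies v v₀) : v = v₀ := by
  obtain ⟨p, hp, hp'⟩ := over_of_lies h
  exact eq_of_over hp' hp

end

end Pool.Agent.U213.OR
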