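import Pool.Agent.U213.OR.PolyDefs

/-!
# Newton polygons on or above Hodge polygons, and direct sums
-/

set_option autoImplicit false

namespace Pool.Agent.U213.OR

/-- the sum of the minima with `t` -/
def msum (M : Multiset ℚ) (t : ℚ) : ℚ := (M.map fun x => min x t).sum

lemma msum_cons (a : ℚ) (M : Multiset ℚ) (t : ℚ) : msum (a ::ₘ M) t = min a t + msum M t := by
  rw [msum, Multiset.map_cons, Multiset.sum_cons, msum]

lemma msum_add (M M' : Multiset ℚ) (t : ℚ) : msum (M + M') t = msum M t + msum M' t := by
  rw [msum, Multiset.map_add, Multiset.sum_add, msum, msum]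

lemma list_le (l : List ℚ) (t : ℚ) (j : ℕ) (hj : j ≤ l.length) :
    (l.map fun x => min x t).sum ≤ (l.take j).sum + ((l.length - j : ℕ) : ℚ) * t := by
  induction l generalizing j with
  | nil =>
    have : j = 0 := by simpa using hj
    subst this
    simp
  | cons a l ih =>
    cases j with
    | zero =>
      have h := ih 0 (Nat.zero_le _)
      simp only [List.map_cons, List.sum_cons, List.take_zero, List.sum_nil, List.length_cons,
        Nat.sub_zero] at h ⊢
      push_cast
      have := min_le_right a t
      linarith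
    | succ j =>
      have hj' : j ≤ l.length := by simpa using hj
      have h := ih j hj'
      simp only [List.map_cons, List.sum_cons, List.take_succ_cons, List.length_cons,
        Nat.add_sub_add_right]
      have := min_le_left a t
      linarith

lemma list_eq (l : List ℚ) (hl : l.Pairwise (· ≤ ·)) (t : ℚ) : ∃ j ≤ l.length,
    (l.map fun x => min x t).sum = (l.take j).sum + ((l.length - j : ℕ) : ℚ) * t := by
  induction l with
  | nil => exact ⟨0, le_rfl, by simp⟩
  | cons a l ih =>
    rw [List.pairwise_cons] at hl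
    by_cases h : a ≤ t
    · obtain ⟨j, hj, hs⟩ := ih hl.2
      refine ⟨j + 1, by simpa using hj, ?_⟩
      simp only [List.map_cons, List.sum_cons, List.take_succ_cons, List.length_cons,
        Nat.add_sub_add_right, min_eq_left h]
      rw [hs]
      ring
    · push Not at h
      refine ⟨0, Nat.zero_le _, ?_⟩
      have h1 : ((a :: l).map fun x => min x t) = List.replicate (a :: l).length t := by
        rw [List.eq_replicate_iff]
        refine ⟨by simp, ?_⟩
        intro b hb
        rw [List.mem_map] at hb
        obtain ⟨x, hx, rfl⟩ := hb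
        refine min_eq_right ?_
        rcases List.mem_cons.1 hx with rfl | hx
        · exact h.le
        · exact h.le.trans (hl.1 x hx)
      rw [h1]
      simp

lemma msum_sort (M : Multiset ℚ) (t : ℚ) :
    msum M t = (((M.sort (· ≤ ·)).map fun x => min x t)).sum := by
  rw [msum]
  conv_lhs => rw [← Multiset.sort_eq M (· ≤ ·)]
  rw [Multiset.map_coe, Multiset.sum_coe]

lemma Above.msum_le {N H : Multiset ℚ} (h : Above N H) (t : ℚ) : msum H t ≤ msum N t := by
  obtain ⟨j, hj, hs⟩ := list_eq (N.sort (· ≤ ·)) (Multiset.pairwise_sort N (· ≤ ·)) t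
  rw [Multiset.length_sort] at hj hs
  have h1 := list_le (H.sort (· ≤ ·)) t j (by rw [Multiset.length_sort, ← h.card]; exact hj)
  rw [Multiset.length_sort, ← h.card] at h1
  rw [msum_sort, msum_sort, hs]
  have h2 : (List.take j (H.sort (· ≤ ·))).sum ≤ (List.take j (N.sort (· ≤ ·))).sum := h.le j
  linarith

lemma msum_of_le {M : Multiset ℚ} {t : ℚ} (h : ∀ x ∈ M, x ≤ t) : msum M t = M.sum := by
  rw [msum, Multiset.map_congr rfl fun x hx => min_eq_left (h x hx), Multiset.map_id']

lemma msum_lt {M : Multiset ℚ} {b t : ℚ} (hb : b ∈ M) (h : t < b) : msum M t < M.sum := by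
  obtain ⟨M', rfl⟩ := Multiset.exists_cons_of_mem hb
  rw [msum_cons, Multiset.sum_cons, min_eq_right h.le]
  have h1 : msum M' t ≤ M'.sum := by
    conv_rhs => rw [← Multiset.map_id' M']
    exact Multiset.sum_map_le_sum_map _ _ fun x _ => min_le_left x t
  linarith

lemma exists_max {M : Multiset ℚ} (h : M ≠ 0) : ∃ a ∈ M, ∀ x ∈ M, x ≤ a := by
  classical
  have h1 : M.toFinset.Nonempty := by
    obtain ⟨a, ha⟩ := Multiset.exists_mem_of_ne_zero h
    exact ⟨a, Multiset.mem_toFinset.2 ha⟩
  exact ⟨M.toFinset.max' h1, Multiset.mem_toFinset.1 (Finset.max'_mem _ _),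
    fun x hx => Finset.le_max' _ _ (Multiset.mem_toFinset.2 hx)⟩

lemma eq_of_msum (n : ℕ) : ∀ N H : Multiset ℚ, N.card = n → H.card = n →
    (∀ t, msum N t = msum H t) → N.sum = H.sum → N = H := by
  induction n with
  | zero =>
    intro N H hN hH _ _
    rw [Multiset.card_eq_zero.1 hN, Multiset.card_eq_zero.1 hH]
  | succ n ih =>
    intro N H hN hH h hsum
    obtain ⟨a, ha, ha'⟩ := exists_max (M := N) (by rw [← Multiset.card_pos, hN]; omega)
    obtain ⟨b, hb, hb'⟩ := exists_max (M := H) (by rw [← Multiset.card_pos, hH]; omega)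
    have hab : a = b := by
      rcases lt_trichotomy a b with h1 | h1 | h1
      · have h2 := msum_lt hb h1
        rw [← h a, msum_of_le ha', hsum] at h2
        exact absurd h2 (lt_irrefl _)
      · exact h1
      · have h2 := msum_lt ha h1
        rw [h b, msum_of_le hb', hsum] at h2
        exact absurd h2 (lt_irrefl _)
    subst hab
    obtain ⟨N', rfl⟩ := Multiset.exists_cons_of_mem ha
    obtain ⟨H', rfl⟩ := Multiset.exists_cons_of_mem hb
    rw [Multiset.card_cons] at hN hH
    have h4 : ∀ t, msum N' t = msum H' t := by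
      intro t
      have h3 := h t
      rw [msum_cons, msum_cons] at h3
      linarith
    have h5 : N'.sum = H'.sum := by
      rw [Multiset.sum_cons, Multiset.sum_cons] at hsum
      linarith
    rw [ih N' H' (by omega) (by omega) h4 h5]

/-- If the polygons of a direct sum are equal, then the polygons of the summands are equal. -/
theorem Above.split {N₁ H₁ N₂ H₂ : Multiset ℚ} (h₁ : Above N₁ H₁) (h₂ : Above N₂ H₂)
    (h : N₁ + N₂ = H₁ + H₂) : N₁ = H₁ ∧ N₂ = H₂ := by
  have h3 : ∀ t, msum N₁ t = msum H₁ t ∧ msum N₂ t = msum H₂ t := by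
    intro t
    have h4 : msum N₁ t + msum N₂ t = msum H₁ t + msum H₂ t := by
      rw [← msum_add, ← msum_add, h]
    have h5 := h₁.msum_le t
    have h6 := h₂.msum_le t
    constructor <;> linarith
  exact ⟨eq_of_msum _ _ _ h₁.card rfl (fun t => (h3 t).1) h₁.sum,
    eq_of_msum _ _ _ h₂.card rfl (fun t => (h3 t).2) h₂.sum⟩

end Pool.Agent.U213.OR
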