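import Pool.Agent.U213.OR.Defs
import Pool.Agent.U213.OR.Poly
import Pool.Agent.U213.OR.Dens
import Pool.Agent.U213.BP.Alt
import Pool.Agent.U213.WM.Rat
import Pool.Agent.Z125.UN.Sym

/-!
# Ordinary places: closure properties, generation, and the descent to `ℚ`
-/

set_option autoImplicit false

open CategoryTheory CategoryTheory.Limits AlgebraicGeometry MvPolynomial Pool.Agent.Y116.UV
  Pool.Agent.Z125.UN Pool.Agent.Q282.UZ Pool.Agent.U213.BP

namespace Pool.Agent.U213.OR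

universe u v

section

variable {K : Type} [Field K] {Pl : Type} (T : Theory.{u, v} K Pl)

/-- the objects which are ordinary at `v` -/
def OrdAt (v : Pl) : ObjectProperty T.𝓐 := fun A => T.newton v A = T.hodge v A

lemma ordAt_iff (v : Pl) {S : ShortComplex T.𝓐} (hS : S.ShortExact) :
    OrdAt T v S.X₂ ↔ OrdAt T v S.X₁ ∧ OrdAt T v S.X₃ := by
  change T.newton v S.X₂ = T.hodge v S.X₂ ↔ _
  rw [T.newton_add v S hS, T.hodge_add v S hS]
  constructor
  · exact fun h => (T.above v S.X₁).split (T.above v S.X₃) h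
  · rintro ⟨h1, h2⟩
    change T.newton v S.X₁ = T.hodge v S.X₁ at h1
    change T.newton v S.X₃ = T.hodge v S.X₃ at h2
    rw [h1, h2]

lemma ordAt_zero (v : Pl) {Z : T.𝓐} (hZ : IsZero Z) : OrdAt T v Z := by
  let S : ShortComplex T.𝓐 := ShortComplex.mk (0 : Z ⟶ Z) (0 : Z ⟶ Z) (by simp)
  have hi : IsIso (0 : Z ⟶ Z) := ⟨0, hZ.eq_of_src _ _, hZ.eq_of_src _ _⟩
  have hS : S.ShortExact :=
    { exact := ShortComplex.exact_of_isZero_X₂ S hZ
      mono_f := (inferInstanceAs (Mono (0 : Z ⟶ Z)))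
      epi_g := (inferInstanceAs (Epi (0 : Z ⟶ Z))) }
  have h1 : T.newton v Z = T.newton v Z + T.newton v Z := T.newton_add v S hS
  have h2 : T.hodge v Z = T.hodge v Z + T.hodge v Z := T.hodge_add v S hS
  have h3 : T.newton v Z = 0 := by simpa using h1
  have h4 : T.hodge v Z = 0 := by simpa using h2
  exact h3.trans h4.symm

instance (v : Pl) : (OrdAt T v).IsSerreClass where
  exists_zero := ⟨_, isZero_zero T.𝓐, ordAt_zero T v (isZero_zero T.𝓐)⟩
  prop_of_mono {X Y} f _ hY := by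
    let S : ShortComplex T.𝓐 := ShortComplex.mk f (cokernel.π f) (by simp)
    have hS : S.ShortExact :=
      { exact := ShortComplex.exact_of_g_is_cokernel S (cokernelIsCokernel f)
        mono_f := (inferInstanceAs (Mono f))
        epi_g := (inferInstanceAs (Epi (cokernel.π f))) }
    exact ((ordAt_iff T v hS).1 hY).1
  prop_of_epi {X Y} f _ hX := by
    let S : ShortComplex T.𝓐 := ShortComplex.mk (kernel.ι f) f (by simp)
    have hS : S.ShortExact :=
      { exact := ShortComplex.exact_of_f_is_kernel S (kernelIsKernel f)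
        mono_f := (inferInstanceAs (Mono (kernel.ι f)))
        epi_g := (inferInstanceAs (Epi f)) }
    exact ((ordAt_iff T v hS).1 hX).2
  prop_X₂_of_shortExact hS h₁ h₃ := (ordAt_iff T v hS).2 ⟨h₁, h₃⟩

lemma mem_ord {v : Pl} {X : Sch K} : v ∈ T.ord X ↔ ∀ n w : ℤ, OrdAt T v (T.H n w X) := Iff.rfl

lemma ord_factor {X Y : Sch K} (h : T.IsFactor X Y) : T.ord Y ⊆ T.ord X := fun v hv n w => by
  obtain ⟨r⟩ := h n w
  exact (OrdAt T v).prop_of_mono r.i (hv n w)

lemma ord_iso {X Y : Sch K} (hX : FT True X) (h : Nonempty (X ≅ Y)) : T.ord X ⊆ T.ord Y :=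
  fun v hv n w => by
    obtain ⟨e⟩ := T.iso n w X Y hX h
    exact (OrdAt T v).prop_of_iso e (hv n w)

lemma ord_total {Z X U : Sch K} (i : Z ⟶ X) (j : U ⟶ X) (hX : FT True X) (ht : IsTriple i j) :
    T.ord Z ∩ T.ord U ⊆ T.ord X := fun v hv n w => by
  obtain ⟨a, b, d, h₁, h₂, h₃, e₁, e₂, e₃⟩ := T.sequence w i j hX ht
  exact (OrdAt T v).prop_X₂_of_exact (e₁ n) (hv.2 n w) (hv.1 n w)

lemma ord_closed {Z X U : Sch K} (i : Z ⟶ X) (j : U ⟶ X) (hX : FT True X) (ht : IsTriple i j) :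
    T.ord X ∩ T.ord U ⊆ T.ord Z := fun v hv n w => by
  obtain ⟨a, b, d, h₁, h₂, h₃, e₁, e₂, e₃⟩ := T.sequence w i j hX ht
  exact (OrdAt T v).prop_X₂_of_exact (e₂ n) (hv.1 n w) (hv.2 (n + 1) w)

lemma ord_opened {Z X U : Sch K} (i : Z ⟶ X) (j : U ⟶ X) (hX : FT True X) (ht : IsTriple i j) :
    T.ord Z ∩ T.ord X ⊆ T.ord U := fun v hv n' w => by
  obtain ⟨a, b, d, h₁, h₂, h₃, e₁, e₂, e₃⟩ := T.sequence w i j hX ht
  obtain ⟨n, rfl⟩ : ∃ n, n' = n + 1 := ⟨n' - 1, by ring⟩
  exact (OrdAt T v).prop_X₂_of_exact (e₃ n) (hv.1 n w) (hv.2 (n + 1) w)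

lemma ord_empty {X : Sch K} (h : IsEmpty X.left) : T.ord X = Set.univ :=
  Set.eq_univ_of_forall fun v n w => ordAt_zero T v (T.empty n w X h)

lemma ord_point : T.ord (aff K K) = Set.univ := by
  refine Set.eq_univ_of_forall fun v n w => ?_
  by_cases h : n ≠ 0 ∨ w ≠ 0
  · exact ordAt_zero T v (T.point.1 n w h)
  · push Not at h
    obtain ⟨rfl, rfl⟩ := h
    exact (T.point.2 v).1.trans (T.point.2 v).2.symm

lemma ord_torus (A : Type) [CommRing A] [Algebra K A] [Algebra.FiniteType K A] :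
    T.ord (aff K (LaurentPolynomial A)) ⊆ T.ord (aff K A) := fun v hv n w => by
  obtain ⟨r⟩ := T.torus n w A
  exact (OrdAt T v).prop_of_mono r.i (hv (n + 1) w)

lemma map_inj {m : ℚ} {M M' : Multiset ℚ} (h : M.map (· + m) = M'.map (· + m)) : M = M' :=
  Multiset.map_injective (add_left_injective m) h

lemma ord_bundle (A : Type) [CommRing A] [Algebra K A] [Algebra.FiniteType K A] (m : ℕ)
    (f : Fin (m + 1) → A) (U : Sch K) (o : U ⟶ aff K A) (h : IsCompl f o) :
    T.ord (aff K (Jou f)) = T.ord U := by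
  ext v
  constructor
  · intro hv n w
    have h1 := T.bundle n w A m f U o h v
    have h2 := hv (n + 2 * m) (w + 2 * m)
    rw [h1.1, h1.2] at h2
    exact map_inj h2
  · intro hv n' w'
    obtain ⟨n, rfl⟩ : ∃ n, n' = n + 2 * m := ⟨n' - 2 * m, by ring⟩
    obtain ⟨w, rfl⟩ : ∃ w, w' = w + 2 * m := ⟨w' - 2 * m, by ring⟩
    have h1 := T.bundle n w A m f U o h v
    rw [h1.1, h1.2, hv n w]

/-- **Closure properties** of the property that the ordinary places are a set of the filter `𝓕`. -/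
theorem bnd (𝓕 : Filter Pl) : Bnd True (fun X => T.ord X ∈ 𝓕) where
  iso h e hX := Filter.mem_of_superset hX (ord_iso T h e)
  total i o h ht hZ hU := Filter.mem_of_superset (Filter.inter_mem hZ hU) (ord_total T i o h ht)
  opened i o h ht hZ hX := Filter.mem_of_superset (Filter.inter_mem hZ hX) (ord_opened T i o h ht)
  closed i o h ht hX hU := Filter.mem_of_superset (Filter.inter_mem hX hU) (ord_closed T i o h ht)
  space m := by
    have h1 := ord_bundle T K m (f1 K m) (aff K K) (𝟙 _) ⟨inferInstance, range_id m⟩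
    rw [ord_point] at h1
    refine Filter.mem_of_superset ?_ (ord_iso T (ft_aff True) ⟨(affIso (jouOne K m)).symm⟩)
    rw [h1]
    exact Filter.univ_mem
  jouanolou A _ _ _ m f U o hj hr h := by
    cases m with
    | zero =>
      have h0 : IsEmpty U.left := ⟨fun x => by
        have h1 : o.left x ∈ Set.range o.left := ⟨x, rfl⟩
        rw [hr] at h1
        obtain ⟨l, -⟩ := h1
        exact l.elim0⟩
      rw [ord_empty T h0]
      exact Filter.univ_mem
    | succ m =>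
      rw [← ord_bundle T A m f U o ⟨hj, hr⟩]
      exact h
  torus A _ _ _ h := Filter.mem_of_superset h (ord_torus T A)
  bundle A _ _ _ m f U o hj hr h := by
    cases m with
    | zero =>
      have h0 : Subsingleton (Jou f) := by
        refine Ideal.Quotient.subsingleton_iff.mpr ?_
        rw [Ideal.eq_top_iff_one, Ideal.mem_span_singleton]
        exact ⟨-1, by simp⟩
      rw [ord_empty T (X := aff K (Jou f)) (inferInstance : IsEmpty (PrimeSpectrum (Jou f)))]
      exact Filter.univ_mem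
    | succ m =>
      rw [ord_bundle T A m f U o ⟨hj, hr⟩]
      exact h

theorem dev (𝓕 : Filter Pl) : Dev True (fun X => T.ord X ∈ 𝓕) where
  iso := (bnd T 𝓕).iso
  total := (bnd T 𝓕).total
  opened := (bnd T 𝓕).opened
  empty _ h := by
    rw [ord_empty T h]
    exact Filter.univ_mem

theorem clo (𝓕 : Filter Pl) : Pool.Agent.Q282.UK.Clo True (fun X => T.ord X ∈ 𝓕) where
  iso := (bnd T 𝓕).iso
  total := (bnd T 𝓕).total
  opened := (bnd T 𝓕).opened
  torus := (bnd T 𝓕).torus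

lemma alt {C : Sch K → Prop} (hC : IsProjClass T C) (𝓕 : Filter Pl) :
    Alt (fun X => T.ord X ∈ 𝓕) C where
  ft := hC.ft
  alteration d A _ _ _ _ hA := by
    obtain ⟨a, Z, Y, V, i, o, ha, ht, hY, h1, h2, h3⟩ := hC.resolution d A hA
    exact ⟨a, Z, Y, V, i, o, ha, ht, hY, h1, h2,
      fun hV => Filter.mem_of_superset hV (ord_factor T h3)⟩

/-- the filter generated by the sets of ordinary places of the schemes with the property `P` -/
def gen (P : Sch K → Prop) : Filter Pl := Filter.generate (T.ord '' {Y | P Y})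

lemma ord_mem_gen {P : Sch K → Prop} {Y : Sch K} (h : P Y) : T.ord Y ∈ gen T P :=
  Filter.mem_generate_of_mem ⟨Y, h, rfl⟩

/-- the sets of the filter contain finite intersections -/
lemma mem_gen {P : Sch K → Prop} {S : Set Pl} (h : S ∈ gen T P) :
    ∃ s : Set (Sch K), s.Finite ∧ (∀ Y ∈ s, P Y) ∧ {v | ∀ Y ∈ s, v ∈ T.ord Y} ⊆ S := by
  obtain ⟨t, ht, hf, hS⟩ := Filter.mem_generate_iff.1 h
  have : Nonempty (Sch K) := ⟨aff K K⟩
  choose! g hg using fun U (hU : U ∈ t) => ht hU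
  refine ⟨g '' t, hf.image g, ?_, ?_⟩
  · rintro _ ⟨U, hU, rfl⟩
    exact (hg U hU).1
  · refine Set.Subset.trans ?_ hS
    intro v hv U hU
    have h1 := hv (g U) ⟨U, hU, rfl⟩
    rwa [(hg U hU).2] at h1

end

section global

variable (S : Theories.{u, v})

lemma ord_restrict {K : Type} [Field K] [NumberField K] {X : Sch K} {X₀ : Sch ℚ}
    (h : ∀ n w : ℤ, Nonempty (Retract ((S.T K).H n w X) ((S.res K).obj ((S.T ℚ).H n w X₀))))
    {v₀ : Place ℚ} (h₀ : v₀ ∈ (S.T ℚ).ord X₀) {v : Place K} (hv : Lies v v₀) :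
    v ∈ (S.T K).ord X := fun n w => by
  obtain ⟨r⟩ := h n w
  refine (OrdAt (S.T K) v).prop_of_mono r.i ?_
  obtain ⟨h1, h2⟩ := S.res_slopes K ((S.T ℚ).H n w X₀) v₀ v hv
  exact h1.trans ((h₀ n w).trans h2.symm)

variable {C : ∀ (K : Type) [Field K] [NumberField K], Sch K → Prop} (hC : S.IsClosed C)

include hC

lemma exists_common (s : Set (Sch ℚ)) (hs : s.Finite) (h : ∀ Y ∈ s, C ℚ Y) :
    ∃ Z, C ℚ Z ∧ (S.T ℚ).ord Z ⊆ {v | ∀ Y ∈ s, v ∈ (S.T ℚ).ord Y} := by
  induction s, hs using Set.Finite.induction_on with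
  | empty =>
    obtain ⟨A, hA, -⟩ := hC.cm ℚ (Or.inl inferInstance)
    exact ⟨A, hA, fun v _ Y hY => absurd hY (Set.notMem_empty Y)⟩
  | @insert Y s _ _ ih =>
    obtain ⟨Z, hZ, h1⟩ := ih fun Y' hY' => h Y' (Set.mem_insert_of_mem _ hY')
    obtain ⟨Z', hZ', h2, h3⟩ := hC.union Y Z (h Y (Set.mem_insert _ _)) hZ
    refine ⟨Z', hZ', fun v hv Y' hY' => ?_⟩
    rcases Set.mem_insert_iff.1 hY' with rfl | hY'
    · exact ord_factor _ h2 hv
    · exact h1 (ord_factor _ h3 hv) Y' hY'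

/-- common ordinary places -/
lemma common_of (h : ∀ X, C ℚ X → PosK ((S.T ℚ).ord X)) : S.Common (C ℚ) := fun s hs hsC => by
  obtain ⟨Z, hZ, hZs⟩ := exists_common S hC s hs hsC
  exact (h Z hZ).mono hZs

/-- **From `ℚ` to all number fields.** -/
theorem allAbove_of (h : ∀ X, C ℚ X → PosK ((S.T ℚ).ord X)) : S.AllAbove C := fun K _ _ X hX => by
  obtain ⟨X₀, hX₀, h₀⟩ := hC.descent K X hX
  exact (h X₀ hX₀).mono fun v₀ hv₀ v hv => ord_restrict S h₀ hv₀ hv

/-- **From `ℚ` to totally real fields and CM fields.** -/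
theorem allCM_of (h : ∀ X, C ℚ X → PosK ((S.T ℚ).ord X)) : S.AllCM C := by
  intro K _ _ L _ _ hK hL X hX
  obtain ⟨X₀, hX₀, h₀⟩ := hC.descent K X hX
  obtain ⟨A, hA, hAf⟩ := hC.cm K hK
  obtain ⟨B, hB, hBf⟩ := hC.cm L hL
  have h1 := common_of S hC h {X₀, A, B} (Set.toFinite _) (by
    rintro Y (rfl | rfl | rfl)
    · exact hX₀
    · exact hA
    · exact hB)
  refine pos_transfer ?_ (h1.diff (hAf.union hBf))
  rintro v₀ ⟨hv, hv'⟩
  have hX' := hv X₀ (Or.inl rfl)
  have hA' := hv A (Or.inr (Or.inl rfl))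
  have hB' := hv B (Or.inr (Or.inr rfl))
  have hsK : Splits K v₀ := by
    by_contra h2
    exact hv' (Or.inl ⟨hA', h2⟩)
  have hsL : Splits L v₀ := by
    by_contra h2
    exact hv' (Or.inr ⟨hB', h2⟩)
  exact ⟨hsK, fun v hlv => ⟨ord_restrict S h₀ hX' hlv, v₀, hlv, hsK, hsL⟩⟩

/-- The three forms of the conjecture for the class `C` are equivalent. -/
theorem fields_iff : List.TFAE [
    ∀ X, C ℚ X → PosK ((S.T ℚ).ord X), S.AllCM C, S.AllAbove C, S.Common (C ℚ)] := by
  tfae_have 1 → 2 := allCM_of S hC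
  tfae_have 1 → 3 := allAbove_of S hC
  tfae_have 1 → 4 := common_of S hC
  tfae_have 2 → 1 := fun h X hX =>
    (h ℚ ℚ (Or.inl inferInstance) (Or.inl inferInstance) X hX).mono fun v hv => hv.1
  tfae_have 3 → 1 := by
    intro h X hX
    refine (h ℚ X hX).mono ?_
    intro v hv
    exact hv v (lies_self v)
  tfae_have 4 → 1 := by
    intro h X hX
    refine (h {X} (Set.finite_singleton X) (by rintro Y rfl; exact hX)).mono ?_
    exact fun v hv => hv X rfl
  tfae_finish

omit hC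

/-- comparison of two classes of test schemes -/
lemma common_mono {P Q : Sch ℚ → Prop} (h : ∀ Y, Q Y → (S.T ℚ).ord Y ∈ gen (S.T ℚ) P)
    (hP : S.Common P) : S.Common Q := by
  intro s hs hsQ
  have h1 : {v | ∀ Y ∈ s, v ∈ (S.T ℚ).ord Y} ∈ gen (S.T ℚ) P := by
    have h2 : {v | ∀ Y ∈ s, v ∈ (S.T ℚ).ord Y} = ⋂ Y ∈ s, (S.T ℚ).ord Y := by
      ext v
      simp
    rw [h2, Filter.biInter_mem hs]
    exact fun Y hY => h Y (hsQ Y hY)
  obtain ⟨t, ht, htP, hsub⟩ := mem_gen (S.T ℚ) h1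
  exact (hP t ht htP).mono hsub

/-- smooth projective varieties and three-term systems -/
theorem systems_iff {D : Sch ℚ → Prop} (hD : IsProjClass (S.T ℚ) D) :
    S.Common D ↔ S.Common IsSys := by
  constructor
  · refine common_mono S ?_
    rintro Y ⟨a, b, c, E, -, rfl⟩
    exact of_class (dev _ _) (alt _ hD _) (fun X hX => ord_mem_gen _ hX) _ (ft_aff True)
  · refine common_mono S fun Y hY => ?_
    exact (three_iff Pool.Agent.U213.WM.short_rat (clo (S.T ℚ) (gen (S.T ℚ) IsSys))).2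
      (fun a b c E hE => ord_mem_gen _ ⟨a, b, c, E, hE, rfl⟩) Y (hD.ft Y hY)

/-- smooth projective varieties of dimension at most `d` and trilinear forms -/
theorem forms_iff {D : Sch ℚ → Prop} (hD : IsProjClass (S.T ℚ) D) (d : ℕ) :
    S.Common (fun X => D X ∧ topologicalKrullDim X.left ≤ d) ↔ S.Common (IsTri (d + 2)) := by
  constructor
  · refine common_mono S ?_
    rintro Y ⟨a, b, c, F, hm, rfl⟩
    have hB := bnd (S.T ℚ) (gen (S.T ℚ) fun X => D X ∧ topologicalKrullDim X.left ≤ d)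
    have h2 : ∀ I : Ideal (MvPolynomial (Fin (d + 1)) ℚ),
        (S.T ℚ).ord (aff ℚ (MvPolynomial (Fin (d + 1)) ℚ ⧸ I)) ∈
          gen (S.T ℚ) fun X => D X ∧ topologicalKrullDim X.left ≤ d := by
      refine dim_to_closed hB fun A _ _ _ hA => ?_
      exact of_class_dim (dev _ _) (alt _ hD _) d (fun X hX hd => ord_mem_gen _ ⟨hX, hd⟩) _
        (ft_aff True) (by rw [topDim_aff]; exact hA)
    exact of_block hB (fun a b c' hc' F => to_tri hB h2 a b c' hc' F) F hm
  · refine common_mono S ?_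
    rintro Y ⟨hY, hd⟩
    exact (dim_tri (bnd (S.T ℚ) (gen (S.T ℚ) (IsTri (d + 2)))) d).mpr
      (fun a b F => ord_mem_gen _ ⟨a, b, d + 2, F, Or.inr (Or.inr le_rfl), rfl⟩) Y (hD.ft Y hY) hd

end global

end Pool.Agent.U213.OR
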