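import Mathlib

/-!
# Polygons
-/

set_option autoImplicit false

namespace Pool.Agent.U213.OR

/-- The height at `j` of the convex polygon which starts at `(0, 0)` and has the slopes in `M`: the sum of
the `j` smallest elements of `M`. -/
def height (M : Multiset ℚ) (j : ℕ) : ℚ := ((M.sort (· ≤ ·)).take j).sum

/-- The polygon of `N` is on or above the polygon of `H`, and both have the same end point. -/
structure Above (N H : Multiset ℚ) : Prop where
  card : N.card = H.card
  sum : N.sum = H.sum
  le : ∀ j, height H j ≤ height N j

end Pool.Agent.U213.OR
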